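import Pool.Agent.Y75.NK.Defs
import Pool.Agent.R719.WD.Idm

/-! # Negative `K`-groups of integral group rings: classes with a dominated reflection vanish

Let `G` be any group (torsion is allowed) and `m ≥ 1`. Every element of Bass's group `K_{-m}(ℤ[G])` is a
difference of classes of idempotent matrices `E` over `ℤ[ℤᵐ × G]`. If each row of the reflection `1 - 2E` is
dominated by one of its coefficients, with respect to some positive weights of the columns, then the class of `E` in
`K_{-m}(ℤ[G])` is zero.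

From the library `Pool.Agent.Y75.NK`: `Kneg m` is Bass's functor `K_{-m}` from rings to abelian groups, `gr R` is the
functor `G ↦ R[G]`, `(EF m).obj G` is the group `ℤᵐ × G`, `Idem A` is the type of the idempotent matrices `e.e` (of size
`e.n`) over the ring `A`, and `kclass R m G e` is the class of `e` in `K_{-m}(R[G])`, for an idempotent matrix `e` over
`R[ℤᵐ × G]`.
-/

set_option autoImplicit false

namespace Pool.Agent.Results.MP_28303a_al.DominatedReflections

open CategoryTheory Matrix Pool.Agent.Y75.NK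

section defs

variable {Γ : Type} [Group Γ]

/-- the sum of the absolute values of the coefficients -/
def norm1 (x : MonoidAlgebra ℤ Γ) : ℕ := ∑ g ∈ x.coeff.support, (x.coeff g).natAbs

/-- Weighted dominance up to a permutation `σ` of the columns and group elements `g i`, with weights
`p j > 0`: the coefficient of `g i` in the entry at `(i, σ i)`, in absolute value and times `p (σ i)`,
is at least the weighted sum of the absolute values of all other coefficients in row `i`. -/
def Dominated {κ : Type} [Fintype κ] (S : Matrix κ κ (MonoidAlgebra ℤ Γ)) : Prop :=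
  ∃ (σ : κ ≃ κ) (g : κ → Γ) (p : κ → ℝ), (∀ j, 0 < p j) ∧ ∀ i,
    (∑ j, (norm1 (S i j) : ℝ) * p j) - |((S i (σ i)).coeff (g i) : ℝ)| * p (σ i)
      ≤ |((S i (σ i)).coeff (g i) : ℝ)| * p (σ i)

end defs

/-- the diagonal idempotent matrix with the set `I` of ones -/
def dg (A : Type) [Ring A] (n : ℕ) (I : Finset (Fin n)) : Idem A where
  n := n
  e := Matrix.diagonal (fun i => if i ∈ I then 1 else 0)
  idem := by
    rw [Matrix.diagonal_mul_diagonal]
    congr 1
    funext i
    split_ifs <;> simp

theorem dg_map {A B : Type} [Ring A] [Ring B] (φ : A →+* B) (n : ℕ) (I : Finset (Fin n)) :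
    (dg A n I).map φ = dg B n I := by
  have h : (Matrix.diagonal (fun i : Fin n => if i ∈ I then (1 : A) else 0)).map φ =
      Matrix.diagonal (fun i => if i ∈ I then (1 : B) else 0) := by
    ext i j
    rw [Matrix.map_apply, Matrix.diagonal_apply, Matrix.diagonal_apply]
    split_ifs <;> simp
  unfold Idem.map dg
  congr 1

theorem cls_conj {A : Type} [Ring A] (e : Idem A) (X : (Matrix (Fin e.n) (Fin e.n) A)ˣ) (I : Finset (Fin e.n))
    (h : X.val * e.e * X⁻¹.val = Matrix.diagonal (fun i => if i ∈ I then 1 else 0)) :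
    cls e = cls (dg A e.n I) := by
  have h1 : X⁻¹.val * Matrix.diagonal (fun i => if i ∈ I then (1 : A) else 0) * X.val = e.e := by
    rw [← h]
    calc X⁻¹.val * (X.val * e.e * X⁻¹.val) * X.val
        = (X⁻¹.val * X.val) * e.e * (X⁻¹.val * X.val) := by simp only [Matrix.mul_assoc]
      _ = e.e := by rw [X.inv_mul, Matrix.one_mul, Matrix.mul_one]
  have h2 : X.val * (X⁻¹.val * Matrix.diagonal (fun i => if i ∈ I then (1 : A) else 0)) =
      Matrix.diagonal (fun i => if i ∈ I then (1 : A) else 0) := by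
    rw [← Matrix.mul_assoc, X.mul_inv, Matrix.one_mul]
  exact cls_eq (f := dg A e.n I) ⟨_, _, h1, h2⟩

/-- diagonal idempotents have no class in negative degrees -/
theorem projT_dg (m : ℕ) (A : RingCat.{0}) (n : ℕ) (I : Finset (Fin n)) :
    ((projT (m + 1)).app A).hom (cls (dg ((lau (m + 1)).obj A) n I)) = 0 := by
  let z : K0 ((lau m).obj ((monF (Multiplicative ℕ)).obj A)) := cls (dg _ n I)
  have h1 := congrArg (fun f => f.hom z) ((projT m).naturality (plus.app A))
  have h2 : ((projT m).app ((monF (Multiplicative ℤ)).obj A)).hom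
      (cls (dg ((lau m).obj ((monF (Multiplicative ℤ)).obj A)) n I)) =
      ((Kneg m).map (plus.app A)).hom (((projT m).app ((monF (Multiplicative ℕ)).obj A)).hom z) := by
    refine Eq.trans ?_ h1
    have h3 : cls (dg ((lau m).obj ((monF (Multiplicative ℤ)).obj A)) n I) =
        K0.map ((lau m).map (plus.app A)).hom z := by
      change _ = cls ((dg _ n I).map _)
      rw [dg_map]
    rw [h3]
    rfl
  have h4 : ((projT m).app ((monF (Multiplicative ℤ)).obj A)).hom
      (cls (dg ((lau m).obj ((monF (Multiplicative ℤ)).obj A)) n I)) ∈ polySub (Kneg m) A := by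
    rw [h2]
    exact AddSubgroup.mem_sup_left ⟨_, rfl⟩
  exact (QuotientAddGroup.eq_zero_iff _).2 h4

theorem kclass_dg (R : Type) [Ring R] (m : ℕ) (G : GrpCat.{0}) (n : ℕ) (I : Finset (Fin n)) :
    kclass R (m + 1) G (dg (MonoidAlgebra R ((EF (m + 1)).obj G)) n I) = 0 := by
  have h := projT_dg m ((gr R).obj G) n I
  refine Eq.trans ?_ h
  have h3 : cls (dg ((lau (m + 1)).obj ((gr R).obj G)) n I) =
      K0.map ((theta R (m + 1)).inv.app G).hom (cls (dg (MonoidAlgebra R ((EF (m + 1)).obj G)) n I)) := by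
    change _ = cls ((dg _ n I).map _)
    rw [dg_map]
  rw [h3]
  rfl

open Pool.Agent.Y35.KC.TTm Pool.Agent.R719.WD in
/-- **Classes of dominated reflections in `K_{-m}(ℤ[G])`, `m ≥ 1`.** -/
theorem result (m : ℕ) (hm : 1 ≤ m) (G : GrpCat.{0}) (e : Idem (MonoidAlgebra ℤ ((EF m).obj G)))
    (h : Dominated (1 - 2 * e.e)) : kclass ℤ m G e = 0 := by
  obtain ⟨m, rfl⟩ : ∃ k, m = k + 1 := ⟨m - 1, by omega⟩
  obtain ⟨σ, g, p, hp, hg⟩ := h
  have h1 : Blk e.e := blk_idem e.e e.idem σ g p hp (fun i => by
    have h2 := hg i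
    have h3 : ∑ j, (l1 ((rfl2 e.e e.idem).val i j) : ℝ) * p j
        = ∑ j, (norm1 ((1 - 2 * e.e : Matrix _ _ (MonoidAlgebra ℤ ((EF (m + 1)).obj G))) i j) : ℝ) * p j := rfl
    have h4 : (((rfl2 e.e e.idem).val i (σ i)).coeff (g i) : ℝ)
        = (((1 - 2 * e.e : Matrix _ _ (MonoidAlgebra ℤ ((EF (m + 1)).obj G))) i (σ i)).coeff (g i) : ℝ) := rfl
    rw [h3, h4]
    linarith)
  obtain ⟨X, I, hX⟩ := conj_blk e.e e.idem h1
  have h5 := cls_conj e X I hX
  have h6 : kclass ℤ (m + 1) G e = kclass ℤ (m + 1) G (dg _ e.n I) :=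
    congrArg (fun z => ((kclT ℤ (m + 1)).app G).hom z) h5
  rw [h6]
  exact kclass_dg ℤ m G e.n I

end Pool.Agent.Results.MP_28303a_al.DominatedReflections
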